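import Pool.Agent.TH829.Kim.Pts

/-!
# The ideals of an adequate relation
-/

set_option autoImplicit false

open CategoryTheory AlgebraicGeometry

universe u v w

namespace Pool.Agent.X308.Q

open Pool.Agent.H914 Pool.Agent.H914.VarClass Pool.Agent.H914.VarClass.Obj Pool.Agent.W492.BB
  Pool.Agent.W550.Corr Pool.Agent.TH133 Pool.Agent.TH829.Prime Pool.Agent.TH829.Kim

set_option linter.unusedSectionVars false

variable {k : Type u} [Field k] {𝒱 : VarClass k}

section chow

variable {C : TheoryData.{u, v, 0} 𝒱 ℚ} [hC : IsChowProj C] {X Y Z W V : 𝒱.Obj} {I : Family C}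

/-- The component of degree `j` of a class. -/
noncomputable def cmp (C : TheoryData.{u, v, 0} 𝒱 ℚ) [IsChowProj C] (W : 𝒱.Obj) (j : ℤ) :
    C.A W →ₗ[ℚ] C.A W :=
  (C.gr W j).subtype ∘ₗ DirectSum.component ℚ ℤ (fun i => C.gr W i) j ∘ₗ
    (LinearEquiv.ofBijective (DirectSum.coeLinearMap (C.gr W)) (C.isInternal W)).symm.toLinearMap

include hC

lemma cmp_mem (j : ℤ) (a : C.A W) : cmp C W j a ∈ C.gr W j := by
  unfold cmp
  exact Submodule.coe_mem _

lemma cmp_of_mem {i j : ℤ} {a : C.A W} (ha : a ∈ C.gr W i) :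
    cmp C W j a = if i = j then a else 0 := by
  have h1 : (LinearEquiv.ofBijective (DirectSum.coeLinearMap (C.gr W)) (C.isInternal W)).symm a =
      DirectSum.lof ℚ ℤ (fun i => C.gr W i) i ⟨a, ha⟩ := by
    rw [LinearEquiv.symm_apply_eq, LinearEquiv.ofBijective_apply, DirectSum.coeLinearMap_lof]
  unfold cmp
  rw [LinearMap.comp_apply, LinearMap.comp_apply, LinearEquiv.coe_coe, h1]
  split_ifs with h
  · subst h
    rw [DirectSum.component.lof_self]
    rfl
  · rw [DirectSum.component.of]
    rw [dif_neg h]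
    rfl

lemma cmp_self {j : ℤ} {a : C.A W} (ha : a ∈ C.gr W j) : cmp C W j a = a := by
  rw [cmp_of_mem ha, if_pos rfl]

lemma iSup_gr (W : 𝒱.Obj) : ⨆ i, C.gr W i = ⊤ := (C.isInternal W).submodule_iSup_eq_top

/-- The classes all of whose components are equivalent to zero. -/
noncomputable def tot (I : Family C) (W : 𝒱.Obj) : Submodule ℚ (C.A W) := ⨆ i, I W i

lemma le_tot (i : ℤ) : I W i ≤ tot I W := le_iSup _ i

lemma cmp_mem_of_tot (hI : IsAdequate C I) {a : C.A W} (ha : a ∈ tot I W) (j : ℤ) :
    cmp C W j a ∈ I W j := by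
  induction ha using Submodule.iSup_induction' with
  | mem i x hx =>
    rw [cmp_of_mem (hI.le_gr W i hx)]
    split_ifs with h
    · exact h ▸ hx
    · exact Submodule.zero_mem _
  | zero =>
    rw [map_zero]
    exact Submodule.zero_mem _
  | add x y _ _ h1 h2 =>
    rw [map_add]
    exact Submodule.add_mem _ h1 h2

lemma mem_of_tot (hI : IsAdequate C I) {a : C.A W} {j : ℤ} (ha : a ∈ tot I W)
    (h : a ∈ C.gr W j) : a ∈ I W j := by
  have := cmp_mem_of_tot hI ha j
  rwa [cmp_self h] at this

lemma tot_pull (hI : IsAdequate C I) (f : W ⟶ V) {a : C.A V} (ha : a ∈ tot I V) :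
    C.pull f a ∈ tot I W := by
  induction ha using Submodule.iSup_induction' with
  | mem i x hx => exact le_tot i (hI.pull_mem f hx)
  | zero =>
    rw [map_zero]
    exact Submodule.zero_mem _
  | add x y _ _ h1 h2 =>
    rw [map_add]
    exact Submodule.add_mem _ h1 h2

lemma tot_push (hI : IsAdequate C I) (f : W ⟶ V) {a : C.A W} (ha : a ∈ tot I W) :
    C.push f a ∈ tot I V := by
  induction ha using Submodule.iSup_induction' with
  | mem i x hx => exact le_tot _ (hI.push_mem f hx)
  | zero =>
    rw [map_zero]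
    exact Submodule.zero_mem _
  | add x y _ _ h1 h2 =>
    rw [map_add]
    exact Submodule.add_mem _ h1 h2

lemma tot_mul (hI : IsAdequate C I) (b : C.A W) {a : C.A W} (ha : a ∈ tot I W) :
    b * a ∈ tot I W := by
  have hb : b ∈ ⨆ i, C.gr W i := by rw [iSup_gr]; exact Submodule.mem_top
  induction hb using Submodule.iSup_induction' with
  | mem j b hb =>
    induction ha using Submodule.iSup_induction' with
    | mem i x hx => exact le_tot _ (hI.mul_mem' hb hx)
    | zero =>
      rw [mul_zero]
      exact Submodule.zero_mem _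
    | add x y _ _ h1 h2 =>
      rw [mul_add]
      exact Submodule.add_mem _ h1 h2
  | zero =>
    rw [zero_mul]
    exact Submodule.zero_mem _
  | add x y _ _ h1 h2 =>
    rw [add_mul]
    exact Submodule.add_mem _ h1 h2

/-- The ideal of the classes equivalent to zero. -/
noncomputable def qI (hI : IsAdequate C I) (W : 𝒱.Obj) : Ideal (C.A W) where
  carrier := {a | a ∈ tot I W}
  zero_mem' := (tot I W).zero_mem
  add_mem' {_ _} ha hb := (tot I W).add_mem ha hb
  smul_mem' b _ ha := tot_mul hI b ha

lemma mem_qI {hI : IsAdequate C I} {a : C.A W} : a ∈ qI hI W ↔ a ∈ tot I W := Iff.rfl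

end chow

end Pool.Agent.X308.Q
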