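import Pool.Agent.X308.Q.Tot

/-!
# The quotient of the theory of Chow groups by an adequate relation
-/

set_option autoImplicit false

open CategoryTheory AlgebraicGeometry

universe u v w

namespace Pool.Agent.X308.Q

open Pool.Agent.H914 Pool.Agent.H914.VarClass Pool.Agent.H914.VarClass.Obj Pool.Agent.W492.BB
  Pool.Agent.W550.Corr Pool.Agent.TH133 Pool.Agent.TH829.Prime Pool.Agent.TH829.Kim

set_option linter.unusedSectionVars false

variable {k : Type u} [Field k] {𝒱 : VarClass k}

section chow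

variable {C : TheoryData.{u, v, 0} 𝒱 ℚ} [hC : IsChowProj C] {X Y Z W V : 𝒱.Obj} {I : Family C}

/-- The ring of the classes on `W` modulo the adequate relation. -/
abbrev QA (hI : IsAdequate C I) (W : 𝒱.Obj) : Type v := C.A W ⧸ qI hI W

/-- The quotient map. -/
noncomputable def qmk (hI : IsAdequate C I) (W : 𝒱.Obj) : C.A W →ₐ[ℚ] QA hI W :=
  Ideal.Quotient.mkₐ ℚ (qI hI W)

lemma qmk_surj (hI : IsAdequate C I) (W : 𝒱.Obj) : Function.Surjective (qmk hI W) :=
  Ideal.Quotient.mkₐ_surjective ℚ (qI hI W)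

lemma qmk_eq_zero {hI : IsAdequate C I} {a : C.A W} : qmk hI W a = 0 ↔ a ∈ tot I W :=
  Ideal.Quotient.eq_zero_iff_mem

/-- The pull-back. -/
noncomputable def qpull (hI : IsAdequate C I) (f : X ⟶ Y) : QA hI Y →ₐ[ℚ] QA hI X :=
  Ideal.quotientMapₐ (qI hI X) (C.pull f) (fun _ ha => tot_pull hI f ha)

lemma qpull_mk (hI : IsAdequate C I) (f : X ⟶ Y) (b : C.A Y) :
    qpull hI f (qmk hI Y b) = qmk hI X (C.pull f b) := rfl

/-- The push-forward, as a homomorphism of groups. -/
noncomputable def qpushAdd (hI : IsAdequate C I) (f : X ⟶ Y) : QA hI X →+ QA hI Y :=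
  QuotientAddGroup.map (qI hI X).toAddSubgroup (qI hI Y).toAddSubgroup
    (C.push f).toAddMonoidHom (fun _ ha => tot_push hI f ha)

/-- The push-forward. -/
noncomputable def qpush (hI : IsAdequate C I) (f : X ⟶ Y) : QA hI X →ₗ[ℚ] QA hI Y :=
  (qpushAdd hI f).toRatLinearMap

lemma qpush_mk (hI : IsAdequate C I) (f : X ⟶ Y) (b : C.A X) :
    qpush hI f (qmk hI X b) = qmk hI Y (C.push f b) := rfl

/-- The theory of Chow groups modulo the adequate relation. -/
noncomputable def quo (hI : IsAdequate C I) : TheoryData.{u, v, 0} 𝒱 ℚ where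
  A W := QA hI W
  gr W i := (C.gr W i).map (qmk hI W).toLinearMap
  pull f := qpull hI f
  push f := qpush hI f

/-- The class in the quotient. -/
noncomputable def qc (hI : IsAdequate C I) {W : 𝒱.Obj} (a : C.A W) : (quo hI).A W := qmk hI W a

/-- The quotient map, as a linear map. -/
noncomputable def qlin (hI : IsAdequate C I) (W : 𝒱.Obj) : C.A W →ₗ[ℚ] (quo hI).A W :=
  (qmk hI W).toLinearMap

lemma qlin_apply (hI : IsAdequate C I) (a : C.A W) : qlin hI W a = qc hI a := rfl

lemma qc_surj (hI : IsAdequate C I) {W : 𝒱.Obj} (x : (quo hI).A W) : ∃ a : C.A W, qc hI a = x :=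
  qmk_surj hI W x

lemma qc_eq_zero {hI : IsAdequate C I} {a : C.A W} : qc hI a = 0 ↔ a ∈ tot I W := qmk_eq_zero

lemma qc_add (hI : IsAdequate C I) (a b : C.A W) : qc hI (a + b) = qc hI a + qc hI b :=
  map_add (qmk hI W) a b
lemma qc_sub (hI : IsAdequate C I) (a b : C.A W) : qc hI (a - b) = qc hI a - qc hI b :=
  map_sub (qmk hI W) a b
lemma qc_neg (hI : IsAdequate C I) (a : C.A W) : qc hI (-a) = -qc hI a :=
  map_neg (qmk hI W) a
lemma qc_mul (hI : IsAdequate C I) (a b : C.A W) : qc hI (a * b) = qc hI a * qc hI b :=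
  map_mul (qmk hI W) a b
lemma qc_one (hI : IsAdequate C I) : qc hI (1 : C.A W) = 1 := map_one (qmk hI W)
lemma qc_zero (hI : IsAdequate C I) : qc hI (0 : C.A W) = 0 := map_zero (qmk hI W)
lemma qc_smul (hI : IsAdequate C I) (q : ℚ) (a : C.A W) : qc hI (q • a) = q • qc hI a :=
  map_smul (qmk hI W) q a
lemma qc_sum (hI : IsAdequate C I) {ι : Type*} (s : Finset ι) (a : ι → C.A W) :
    qc hI (∑ i ∈ s, a i) = ∑ i ∈ s, qc hI (a i) := map_sum (qmk hI W) a s
lemma qc_pow (hI : IsAdequate C I) (a : C.A W) (n : ℕ) : qc hI (a ^ n) = qc hI a ^ n :=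
  map_pow (qmk hI W) a n
lemma qc_pull (hI : IsAdequate C I) (f : X ⟶ Y) (b : C.A Y) :
    (quo hI).pull f (qc hI b) = qc hI (C.pull f b) := rfl
lemma qc_push (hI : IsAdequate C I) (f : X ⟶ Y) (b : C.A X) :
    (quo hI).push f (qc hI b) = qc hI (C.push f b) := rfl

lemma qc_mem (hI : IsAdequate C I) {a : C.A W} {i : ℤ} (ha : a ∈ C.gr W i) :
    qc hI a ∈ (quo hI).gr W i := ⟨a, ha, rfl⟩

lemma qc_gr (hI : IsAdequate C I) {x : (quo hI).A W} {i : ℤ} (hx : x ∈ (quo hI).gr W i) :
    ∃ a : C.A W, a ∈ C.gr W i ∧ qc hI a = x := hx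

lemma mem_of_qc {hI : IsAdequate C I} {a : C.A W} {i : ℤ} (ha : a ∈ C.gr W i)
    (h : qc hI a = 0) : a ∈ I W i := mem_of_tot hI (qc_eq_zero.1 h) ha

lemma qc_of_mem (hI : IsAdequate C I) {a : C.A W} {i : ℤ} (ha : a ∈ I W i) : qc hI a = 0 :=
  qc_eq_zero.2 (le_tot i ha)

/-- The components in the quotient. -/
noncomputable def qcmp (hI : IsAdequate C I) (W : 𝒱.Obj) (j : ℤ) :
    (quo hI).A W →+ (quo hI).A W :=
  QuotientAddGroup.map (qI hI W).toAddSubgroup (qI hI W).toAddSubgroup
    (cmp C W j).toAddMonoidHom (fun _ ha => le_tot j (cmp_mem_of_tot hI ha j))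

lemma qcmp_qc (hI : IsAdequate C I) (j : ℤ) (a : C.A W) :
    qcmp hI W j (qc hI a) = qc hI (cmp C W j a) := rfl

lemma qcmp_of_mem (hI : IsAdequate C I) {i j : ℤ} {x : (quo hI).A W} (hx : x ∈ (quo hI).gr W i) :
    qcmp hI W j x = if i = j then x else 0 := by
  obtain ⟨a, ha, rfl⟩ := qc_gr hI hx
  rw [qcmp_qc, cmp_of_mem ha]
  split_ifs
  · rfl
  · rw [qc_zero]

lemma isInternal_quo (hI : IsAdequate C I) (W : 𝒱.Obj) :
    DirectSum.IsInternal ((quo hI).gr W) := by
  constructor
  · rw [injective_iff_map_eq_zero]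
    intro x hx
    have key : ∀ (y : DirectSum ℤ (fun i => (quo hI).gr W i)) (j : ℤ),
        qcmp hI W j (DirectSum.coeAddMonoidHom ((quo hI).gr W) y) = (y j : (quo hI).A W) := by
      intro y j
      induction y using DirectSum.induction_on with
      | zero =>
        rw [map_zero, map_zero]
        rfl
      | of i z =>
        rw [DirectSum.coeAddMonoidHom_of, qcmp_of_mem hI z.2]
        split_ifs with h
        · subst h
          rw [DirectSum.of_eq_same]
        · rw [DirectSum.of_eq_of_ne _ _ _ (Ne.symm h)]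
          rfl
      | add y z h1 h2 =>
        rw [map_add, map_add, h1, h2]
        rfl
    ext j
    have h1 := key x j
    rw [hx, map_zero] at h1
    rw [← h1]
    rfl
  · intro x
    obtain ⟨a, rfl⟩ := qc_surj hI x
    have ha : a ∈ ⨆ i, C.gr W i := by rw [iSup_gr]; exact Submodule.mem_top
    induction ha using Submodule.iSup_induction' with
    | mem j b hb =>
      refine ⟨DirectSum.of (fun i => (quo hI).gr W i) j ⟨qc hI b, qc_mem hI hb⟩, ?_⟩
      rw [DirectSum.coeAddMonoidHom_of]
    | zero => exact ⟨0, by rw [map_zero, qc_zero]⟩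
    | add x y _ _ h1 h2 =>
      obtain ⟨u, hu⟩ := h1
      obtain ⟨v, hv⟩ := h2
      exact ⟨u + v, by rw [map_add, hu, hv, qc_add]⟩

instance isTheory_quo (hI : IsAdequate C I) : IsTheory (quo hI) 1 where
  isGradedRing :=
    { isInternal := isInternal_quo hI
      gr_neg := by
        intro X i hi
        rw [eq_bot_iff]
        intro x hx
        obtain ⟨a, ha, rfl⟩ := qc_gr hI hx
        rw [C.gr_neg X i hi, Submodule.mem_bot] at ha
        rw [ha, qc_zero]
        exact Submodule.zero_mem _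
      one_mem := fun X => qc_mem hI (C.one_mem X)
      mul_mem := by
        intro X i j a b ha hb
        obtain ⟨a, ha', rfl⟩ := qc_gr hI ha
        obtain ⟨b, hb', rfl⟩ := qc_gr hI hb
        exact qc_mem hI (C.mul_mem ha' hb') }
  hasDegrees :=
    { pull_mem := by
        intro X Y f i b hb
        obtain ⟨b, hb', rfl⟩ := qc_gr hI hb
        exact qc_mem hI (C.pull_mem f hb')
      push_mem := by
        intro X Y f i a ha
        obtain ⟨a, ha', rfl⟩ := qc_gr hI ha
        exact qc_mem hI (C.push_mem f ha') }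
  isFunctor :=
    { pull_id := by
        intro X a
        obtain ⟨a, rfl⟩ := qc_surj hI a
        rw [TheoryData.up, qc_pull, C.pull_id]
      pull_comp := by
        intro X Y Z f g a
        obtain ⟨a, rfl⟩ := qc_surj hI a
        rw [TheoryData.up, TheoryData.up, TheoryData.up, qc_pull, qc_pull, qc_pull, C.pull_comp]
      push_id := by
        intro X a
        obtain ⟨a, rfl⟩ := qc_surj hI a
        rw [TheoryData.down, qc_push, C.push_id]
      push_comp := by
        intro X Y Z f g a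
        obtain ⟨a, rfl⟩ := qc_surj hI a
        rw [TheoryData.down, TheoryData.down, TheoryData.down, qc_push, qc_push, qc_push,
          C.push_comp] }
  hasProjectionFormula :=
    { proj_right := by
        intro X Y f a b
        obtain ⟨a, rfl⟩ := qc_surj hI a
        obtain ⟨b, rfl⟩ := qc_surj hI b
        rw [TheoryData.down, TheoryData.down, TheoryData.up, TheoryData.mul, TheoryData.mul,
          qc_pull, ← qc_mul, qc_push, C.proj_right, qc_mul, qc_push]
      proj_left := by
        intro X Y f a b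
        obtain ⟨a, rfl⟩ := qc_surj hI a
        obtain ⟨b, rfl⟩ := qc_surj hI b
        rw [TheoryData.down, TheoryData.down, TheoryData.up, TheoryData.mul, TheoryData.mul,
          qc_pull, ← qc_mul, qc_push, C.proj_left, qc_mul, qc_push] }
  hasBaseChange :=
    { base_fst := by
        intro X Y f Z a
        obtain ⟨a, rfl⟩ := qc_surj hI a
        rw [TheoryData.down, TheoryData.down, TheoryData.up, TheoryData.up, qc_push, qc_pull,
          qc_pull, qc_push, C.base_fst]
      base_snd := by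
        intro X Y f Z a
        obtain ⟨a, rfl⟩ := qc_surj hI a
        rw [TheoryData.down, TheoryData.down, TheoryData.up, TheoryData.up, qc_push, qc_pull,
          qc_pull, qc_push, C.base_snd] }

instance isChowProj_quo (hI : IsAdequate C I) : IsChowProj (quo hI) where
  isTheory := isTheory_quo hI
  mul_comm := by
    intro X a b
    obtain ⟨a, rfl⟩ := qc_surj hI a
    obtain ⟨b, rfl⟩ := qc_surj hI b
    rw [TheoryData.mul, TheoryData.mul, ← qc_mul, ← qc_mul, ch_comm C]
  exists_deg_one := by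
    intro X
    obtain ⟨a, ha, h1, h2⟩ := hC.exists_deg_one X
    refine ⟨qc hI a, qc_mem hI ha, fun Z => ?_, fun Z => ?_⟩
    · have h3 := h1 Z
      rw [TheoryData.down, TheoryData.up] at h3 ⊢
      rw [qc_pull, qc_push, h3, qc_one]
    · have h3 := h2 Z
      rw [TheoryData.down, TheoryData.up] at h3 ⊢
      rw [qc_pull, qc_push, h3, qc_one]
  push_one := by
    intro X Y f g h1 h2
    have h3 := (inferInstance : HasIso C).push_one f g h1 h2
    rw [TheoryData.down] at h3 ⊢
    rw [← qc_one hI, qc_push, h3, qc_one]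
  gr_zero := by
    intro X x hx
    obtain ⟨a, ha, rfl⟩ := qc_gr hI hx
    obtain ⟨q, hq⟩ := hC.gr_zero X a ha
    exact ⟨q, by rw [hq, qc_smul, qc_one]⟩
  gr_top := by
    intro X i x hx hi
    obtain ⟨a, ha, rfl⟩ := qc_gr hI hx
    rw [hC.gr_top X i a ha hi, qc_zero]
  degree := by
    intro X x hx
    obtain ⟨a, ha, rfl⟩ := qc_gr hI hx
    obtain ⟨q, hq⟩ := hC.degree X a ha
    refine ⟨q, fun Y => ⟨?_, ?_⟩⟩
    · have h3 := (hq Y).1
      rw [TheoryData.down, TheoryData.up] at h3 ⊢
      rw [qc_pull, qc_push, h3, qc_smul, qc_one]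
    · have h3 := (hq Y).2
      rw [TheoryData.down, TheoryData.up] at h3 ⊢
      rw [qc_pull, qc_push, h3, qc_smul, qc_one]
  polarized := by
    intro X
    obtain ⟨h, hh, q, hq, h1⟩ := hC.polarized X
    refine ⟨qc hI h, qc_mem hI hh, q, hq, ?_⟩
    rw [TheoryData.down, TheoryData.up] at h1 ⊢
    rw [← qc_pow, qc_pull, qc_push, h1, qc_smul, qc_one]

end chow

end Pool.Agent.X308.Q
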